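import Mathlib

set_option autoImplicit false

namespace Pool.Agent.Results.MP_2b19eb_nt.No81

open Finset

/-- `lcm(1,…,n)` divided by the denominator of `H_n` -/
def a (n : ℕ) : ℕ := (Icc 1 n).lcm id / (harmonic n).den

lemma split3 (n : ℕ) : padicNorm 3 (harmonic n - harmonic (n / 3) / 3) ≤ 1 := by
  induction n with
  | zero => simp
  | succ n ih =>
    by_cases h : 3 ∣ n + 1
    · obtain ⟨m, hm⟩ := h
      have h1 : (n + 1) / 3 = n / 3 + 1 := by omega
      have h2 : ((n + 1 : ℕ) : ℚ) = 3 * ((n / 3 + 1 : ℕ) : ℚ) := by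
        exact_mod_cast (by omega : n + 1 = 3 * (n / 3 + 1))
      rw [h1, harmonic_succ, harmonic_succ, h2]
      convert ih using 2
      rw [mul_inv]; ring
    · have h1 : (n + 1) / 3 = n / 3 := by omega
      rw [h1, harmonic_succ, add_sub_right_comm]
      refine padicNorm.nonarchimedean.trans (max_le ih ?_)
      rw [← one_div, padicNorm.div, (padicNorm.nat_eq_one_iff _).2 h, padicNorm.one, div_one]

lemma base : ∀ m ∈ Ico 27 81, ¬ (3 : ℤ) ∣ (harmonic m).num := by decide +kernel

lemma low (k : ℕ) : ∀ n, 3 ^ (k + 3) ≤ n → n < 3 ^ (k + 4) → 3 ^ k ≤ padicNorm 3 (harmonic n) := by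
  induction k with
  | zero =>
    intro n h1 h2
    have h3 := (padicNorm.int_eq_one_iff (p := 3) _).2 (base n (mem_Ico.2 ⟨h1, h2⟩))
    have h4 := padicNorm.of_nat (p := 3) (harmonic n).den
    have h5 : padicNorm 3 (harmonic n) * padicNorm 3 ((harmonic n).den : ℚ) = 1 := by
      rw [← padicNorm.mul, Rat.mul_den_eq_num, h3]
    nlinarith [padicNorm.nonneg (p := 3) (harmonic n)]
  | succ k ih =>
    intro n h1 h2
    have h3 := ih (n / 3) (by rw [pow_succ] at h1; omega) (by rw [pow_succ] at h2; omega)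
    have h4 : padicNorm 3 (harmonic (n / 3) / 3) = padicNorm 3 (harmonic (n / 3)) * 3 := by
      have : padicNorm 3 (3 : ℚ) = 3⁻¹ := padicNorm.padicNorm_p_of_prime (p := 3)
      rw [padicNorm.div, this, div_inv_eq_mul]
    have h5 := split3 n
    have h6 : (1 : ℚ) ≤ 3 ^ k := one_le_pow₀ (by norm_num)
    have h7 := padicNorm.sub (p := 3) (q := harmonic n) (r := harmonic n - harmonic (n / 3) / 3)
    rw [sub_sub_cancel, h4] at h7
    rcases le_max_iff.1 h7 with h | h
    · rw [pow_succ]; linarith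
    · linarith

theorem result : ¬ ∀ m : ℕ, Odd m → ∃ n, 1 ≤ n ∧ a n = m := by
  intro h
  obtain ⟨n, hn, ha⟩ := h 81 (by decide)
  set L := (Icc 1 n).lcm id with hL
  have hL0 : L ≠ 0 := by
    rw [hL, Ne, Finset.lcm_eq_zero_iff]
    rintro ⟨x, hx, h⟩
    have := (mem_Icc.1 hx).1
    simp only [id] at h; omega
  have hv : L.factorization 3 = Nat.log 3 n := Nat.factorization_lcmUpto n (by norm_num)
  have h1 : (harmonic n).den ∣ L := by
    rw [harmonic_eq_sum_Icc]
    refine Finset.sum_induction _ (fun q : ℚ => q.den ∣ L)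
      (fun x y hx hy => (Rat.add_den_dvd_lcm x y).trans (Nat.lcm_dvd hx hy)) (by simp) fun i hi => ?_
    rw [Rat.inv_natCast_den_of_pos (mem_Icc.1 hi).1]
    exact Finset.dvd_lcm (f := id) hi
  have h2 : L = 3 ^ 4 * (harmonic n).den := by
    rw [← Nat.div_mul_cancel h1]; exact congrArg (· * _) ha
  have h3 : 4 + (harmonic n).den.factorization 3 = Nat.log 3 n := by
    rw [← hv, h2, Nat.factorization_mul (by norm_num) (harmonic n).den_nz,
      Nat.Prime.factorization_pow (by norm_num)]
    simp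
  obtain ⟨k, hk⟩ : ∃ k, Nat.log 3 n = k + 4 := ⟨_, by rw [← h3, add_comm]⟩
  have h4 := low (k + 1) n (hk ▸ Nat.pow_log_le_self 3 (by omega))
    (by have := Nat.lt_pow_succ_log_self (by norm_num : 1 < 3) n; rwa [hk] at this)
  have h5 : padicNorm 3 (harmonic n) * padicNorm 3 ((harmonic n).den : ℚ) ≤ 1 := by
    rw [← padicNorm.mul, Rat.mul_den_eq_num]; exact padicNorm.of_int _
  have h6 : padicNorm 3 ((harmonic n).den : ℚ) = 1 / 3 ^ k := by
    rw [padicNorm.eq_zpow_of_nonzero (by exact_mod_cast (harmonic n).den_nz), padicValRat.of_nat,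
      ← Nat.factorization_def _ (by norm_num), show (harmonic n).den.factorization 3 = k by omega]
    simp
  rw [h6, mul_one_div, div_le_one (by positivity)] at h5
  have : (0 : ℚ) < 3 ^ k := by positivity
  rw [pow_succ] at h4
  linarith

end Pool.Agent.Results.MP_2b19eb_nt.No81
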